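import Mathlib
import Pool.Agent.Lib.helper11.IoD

set_option autoImplicit false
open Set Filter Complex Topology

namespace Pool.Agent.H.MP_4e7b39_an

theorem mix {r p q : ℝ} (hr : |r| ≤ 1) (hp : 0 < p) (hq : 0 < q) :
    0 < (1 + r) / 2 * p + (1 - r) / 2 * q := by
  rw [abs_le] at hr
  rcases le_total p q with h | h <;> nlinarith [hr.1, hr.2]

theorem cross (α σ : ℝ → ℂ) (hα : ContinuousOn α (Icc (-1) 1)) (hσ : ContinuousOn σ (Icc (-1) 1))
    (h1 : ∀ t ∈ Icc (-1 : ℝ) 1, (α (-1)).im < (σ t).im ∧ (σ t).im < (α 1).im)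
    (h2 : ∀ u ∈ Icc (-1 : ℝ) 1, (σ (-1)).re < (α u).re ∧ (α u).re < (σ 1).re) :
    ∃ u ∈ Icc (-1 : ℝ) 1, ∃ t ∈ Icc (-1 : ℝ) 1, α u = σ t := by
  have b : ∀ z : (ℝ × ℝ) × ℝ, ‖z‖ = 1 → |z.1.1| ≤ 1 ∧ |z.1.2| ≤ 1 ∧ |z.2| ≤ 1 := fun z hz =>
    ⟨(norm_fst_le z.1).trans ((norm_fst_le z).trans hz.le),
      (norm_snd_le z.1).trans ((norm_fst_le z).trans hz.le), (norm_snd_le z).trans hz.le⟩
  have m : ∀ x : ℝ, |x| ≤ 1 → x ∈ Icc (-1 : ℝ) 1 := fun x hx => abs_le.1 hx
  have m' : ∀ x : ℝ, |x| ≤ 1 → -x ∈ Icc (-1 : ℝ) 1 := fun x hx => m _ (by rwa [abs_neg])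
  obtain ⟨⟨⟨x, y⟩, r⟩, hz, h0⟩ := Pool.Agent.Lib.helper9.BorsukUlam.borsuk_ulam
    (E := (ℝ × ℝ) × ℝ) (F := ℂ) (Or.inr (by simp))
    (fun z => ((1 + z.2) / 2) • (α z.1.1 - σ z.1.2) - ((1 - z.2) / 2) • (α (-z.1.1) - σ (-z.1.2)))
    (by
      refine ContinuousOn.sub (ContinuousOn.smul (f := fun z : (ℝ × ℝ) × ℝ => (1 + z.2) / 2)
        (by fun_prop) (ContinuousOn.sub ?_ ?_)) (ContinuousOn.smul
          (f := fun z : (ℝ × ℝ) × ℝ => (1 - z.2) / 2) (by fun_prop) (ContinuousOn.sub ?_ ?_))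
      · exact hα.comp (f := fun z : (ℝ × ℝ) × ℝ => z.1.1) (by fun_prop) fun z hz => m _ (b z hz).1
      · exact hσ.comp (f := fun z : (ℝ × ℝ) × ℝ => z.1.2) (by fun_prop) fun z hz => m _ (b z hz).2.1
      · exact hα.comp (f := fun z : (ℝ × ℝ) × ℝ => -z.1.1) (by fun_prop) fun z hz => m' _ (b z hz).1
      · exact hσ.comp (f := fun z : (ℝ × ℝ) × ℝ => -z.1.2) (by fun_prop)
          fun z hz => m' _ (b z hz).2.1)
    (fun z _ => by
      simp only [Prod.fst_neg, Prod.snd_neg, neg_neg, sub_neg_eq_add, ← sub_eq_add_neg, neg_sub])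
  obtain ⟨bx, bY, br⟩ := b _ hz
  simp only at h0 bx bY br
  have hre := congrArg Complex.re h0
  have him := congrArg Complex.im h0
  simp only [sub_re, smul_re, sub_im, smul_im, smul_eq_mul, zero_re, zero_im] at hre him
  have hx : |x| ≠ 1 := by
    intro h
    rcases (abs_eq zero_le_one).1 h with rfl | rfl
    · have := mix br (sub_pos.2 (h1 y (m _ bY)).2) (sub_pos.2 (h1 (-y) (m' _ bY)).1)
      linarith
    · have := mix br (sub_pos.2 (h1 y (m _ bY)).1) (sub_pos.2 (h1 (-y) (m' _ bY)).2)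
      rw [neg_neg] at him
      linarith
  have hy : |y| ≠ 1 := by
    intro h
    rcases (abs_eq zero_le_one).1 h with rfl | rfl
    · have := mix br (sub_pos.2 (h2 x (m _ bx)).2) (sub_pos.2 (h2 (-x) (m' _ bx)).1)
      linarith
    · have := mix br (sub_pos.2 (h2 x (m _ bx)).1) (sub_pos.2 (h2 (-x) (m' _ bx)).2)
      rw [neg_neg] at hre
      linarith
  have hr : |r| = 1 := by
    simp only [Prod.norm_def, Real.norm_eq_abs] at hz
    rcases max_choice (max |x| |y|) |r| with h | h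
    · rw [h] at hz
      rcases max_choice |x| |y| with h | h
      · exact absurd (h ▸ hz) hx
      · exact absurd (h ▸ hz) hy
    · exact h ▸ hz
  rcases (abs_eq zero_le_one).1 hr with rfl | rfl
  · norm_num at h0
    exact ⟨x, m _ bx, y, m _ bY, sub_eq_zero.1 h0⟩
  · norm_num at h0
    exact ⟨-x, m' _ bx, -y, m' _ bY, (sub_eq_zero.1 h0).symm⟩

theorem uniq {L K : ℝ → ℂ} {a : ℝ} (hL : ContinuousOn L (Ici a)) (hK : ContinuousOn K (Ici a))
    (h : ∀ t, a ≤ t → exp (L t) = exp (K t)) (t : ℝ) (ht : a ≤ t) : L t - K t = L a - K a := by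
  refine isCoveringMap_exp.constOn_of_comp (g := fun t => L t - K t) isPreconnected_Ici (hL.sub hK)
    (fun s hs s' hs' => ?_) ht self_mem_Ici
  simp only [exp_sub, h s hs, h s' hs', div_self (exp_ne_zero _)]

/-- curves going to infinity with a bounded continuous argument -/
def Tame (γ : ℝ → ℂ) : Prop :=
  ∃ (L : ℝ → ℂ) (a C : ℝ), ContinuousOn L (Ici a) ∧ Tendsto (fun t => (L t).re) atTop atTop ∧
    ∀ t, a ≤ t → exp (L t) = γ t ∧ |(L t).im| ≤ C

theorem Tame.neg {γ : ℝ → ℂ} (h : Tame γ) : Tame fun t => -γ t := by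
  obtain ⟨L, a, C, h1, h2, h3⟩ := h
  refine ⟨fun t => L t + Real.pi * I, a, C + Real.pi, h1.add continuousOn_const, by simpa using h2,
    fun t ht => ⟨by rw [exp_add_pi_mul_I, (h3 t ht).1], ?_⟩⟩
  have := abs_add_le (L t).im Real.pi
  rw [abs_of_pos Real.pi_pos] at this
  simpa using this.trans (by linarith [(h3 t ht).2])

theorem tame_of_ge {γ : ℝ → ℂ} (hc : Continuous γ) (h : Tendsto (fun t => ‖γ t‖) atTop atTop)
    {c : ℝ} (hb : ∀ t, c ≤ (γ t).re) : Tame γ := by
  obtain ⟨a, ha⟩ := eventually_atTop.1 (h.eventually_gt_atTop |c|)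
  have hs : ∀ t, a ≤ t → γ t ∈ slitPlane := fun t ht => by
    by_contra hn
    rw [mem_slitPlane_iff, not_or, not_lt, not_not] at hn
    have h1 := ha t ht
    have h2 : ‖γ t‖ = |(γ t).re| := (abs_re_eq_norm.2 hn.2).symm
    rw [h2, abs_of_nonpos hn.1] at h1
    linarith [hb t, neg_abs_le c]
  refine ⟨fun t => log (γ t), a, Real.pi, hc.continuousOn.clog hs, ?_, fun t ht =>
    ⟨exp_log (slitPlane_ne_zero (hs t ht)), by rw [log_im]; exact abs_arg_le_pi _⟩⟩
  simp only [log_re]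
  exact Real.tendsto_log_atTop.comp h

theorem big {A : ℂ → ℂ} (hA : IsProperMap A) (M : ℝ) : ∃ R : ℝ, ∀ w : ℂ, R ≤ w.re →
    M < ‖A (exp w)‖ := by
  have h := (isProperMap_iff_tendsto_cocompact.1 hA).2
  rw [← Metric.cobounded_eq_cocompact, ← tendsto_norm_atTop_iff_cobounded,
    ← comap_norm_atTop] at h
  obtain ⟨s, hs, h2⟩ := mem_comap.1 (h.eventually_gt_atTop M)
  obtain ⟨b, hb⟩ := mem_atTop_sets.1 hs
  refine ⟨b, fun w hw => h2 (hb _ ?_)⟩
  rw [norm_exp]
  linarith [Real.add_one_le_exp w.re]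

theorem main {A : ℂ → ℂ} (hA : IsProperMap A) (hi : A.Injective) {β : ℝ}
    (hβ : Tame fun s => A (exp (s + β * I))) {γ : ℝ → ℂ} (hγ : Tame γ) :
    Tame fun t => A (γ t) := by
  obtain ⟨R, hR⟩ := big hA 0
  have hU : IsSimplyConnected {w : ℂ | R < w.re} := by
    have := (convex_halfSpace_re_gt R).contractibleSpace ⟨(R + 1 : ℝ), by simp⟩
    exact SimplyConnectedSpace.ofContractible _
  obtain ⟨B, hB, hB2⟩ := exists_continuousOn_eqOn_exp_comp hU
    (isOpen_lt continuous_const continuous_re) (g := fun w => A (exp w))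
    (hA.continuous.comp continuous_exp).continuousOn (by
      rintro ⟨w, hw, h0⟩
      have := hR w (le_of_lt hw)
      simp [h0] at this)
  have hBe : ∀ w : ℂ, R < w.re → exp (B w) = A (exp w) := fun w hw => hB2 hw
  have hBr : ∀ M : ℝ, ∃ S : ℝ, ∀ w : ℂ, S ≤ w.re → R < w.re ∧ M < (B w).re := fun M => by
    obtain ⟨S, hS⟩ := big hA (Real.exp M)
    refine ⟨max S (R + 1), fun w hw => ?_⟩
    have h1 : R < w.re := by linarith [le_max_right S (R + 1)]
    have := hS w ((le_max_left _ _).trans hw)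
    rw [← hBe w h1, norm_exp, Real.exp_lt_exp] at this
    exact ⟨h1, this⟩
  obtain ⟨K, a, C, k1, k2, k3⟩ := hβ
  obtain ⟨L, b, D, l1, l2, l3⟩ := hγ
  obtain ⟨a', ha1, ha2⟩ : ∃ a', a ≤ a' ∧ R < a' := ⟨max a (R + 1), le_max_left _ _,
    by linarith [le_max_right a (R + 1)]⟩
  have line : ∀ k : ℤ, ∃ E : ℝ, ∀ s : ℝ, a' ≤ s →
      |(B (s + β * I + k * (2 * Real.pi * I))).im| ≤ E := fun k => by
    have := uniq (L := fun s : ℝ => B (s + β * I + k * (2 * Real.pi * I))) (K := K) (a := a')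
      (hB.comp (by fun_prop) fun s hs => by simpa using ha2.trans_le hs)
      (k1.mono (Ici_subset_Ici.2 ha1)) fun s hs => by
        rw [hBe _ (by simpa using ha2.trans_le hs), (k3 s (ha1.trans hs)).1, exp_add (s + β * I),
          exp_int_mul_two_pi_mul_I, mul_one]
    refine ⟨C + |(B (a' + β * I + k * (2 * Real.pi * I)) - K a').im|, fun s hs => ?_⟩
    rw [← this s hs, sub_im]
    have h1 := abs_add_le (K s).im ((B (s + β * I + k * (2 * Real.pi * I))).im - (K s).im)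
    rw [add_sub_cancel] at h1
    linarith [(k3 s (ha1.trans hs)).2]
  choose E hE using line
  obtain ⟨N, hN⟩ := exists_nat_ge (D + |β|)
  obtain ⟨E0, hE0⟩ : ∃ E0, ∀ k : ℤ, |k| ≤ N → E k ≤ E0 := by
    obtain ⟨E0, h⟩ := (Set.finite_Icc (-N : ℤ) N).image E |>.bddAbove
    exact ⟨E0, fun k hk => h ⟨k, abs_le.1 hk, rfl⟩⟩
  obtain ⟨J, hJ⟩ := exists_nat_gt (C + E0)
  have pi3 := Real.pi_gt_three
  have hJ0 : (0 : ℝ) ≤ J := J.cast_nonneg
  obtain ⟨S, hS⟩ := hBr (K a').re
  have bound : ∀ w : ℂ, max S a' ≤ w.re → |w.im| ≤ D → |(B w).im| ≤ C + J * (2 * Real.pi) := by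
    intro w hw hw2
    have hw3 : a' ≤ w.re := (le_max_right _ _).trans hw
    have step : ∀ (p q : ℝ) (j : ℤ), |p| ≤ D + |β| → |q| ≤ D + |β| → |(j : ℝ)| = J →
        (B (w.re + p * I)).im < j * (2 * Real.pi) - C →
        ¬ j * (2 * Real.pi) + C < (B (w.re + q * I)).im := by
      intro p q j hp hq hj h1 h2
      obtain ⟨v, hv⟩ : ∃ v : ℝ → ℝ, v = fun u => (1 - u) / 2 * p + (1 + u) / 2 * q := ⟨_, rfl⟩
      have vc : Continuous v := by rw [hv]; fun_prop
      have hα : Continuous fun u : ℝ => B (w.re + v u * I) :=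
        hB.comp_continuous (by fun_prop) fun u => by simpa using ha2.trans_le hw3
      obtain ⟨M, hM⟩ := (isCompact_Icc (a := (-1 : ℝ)) (b := 1)).bddAbove_image
        (continuous_re.comp hα).continuousOn
      obtain ⟨T, hT1, hT2⟩ := ((k2.eventually_gt_atTop M).and (eventually_ge_atTop a')).exists
      have mt : ∀ t ∈ Icc (-1 : ℝ) 1, a' ≤ a' + (1 + t) / 2 * (T - a') := fun t ht => by
        have := mul_nonneg (show 0 ≤ (1 + t) / 2 by linarith [ht.1]) (sub_nonneg.2 hT2)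
        linarith
      obtain ⟨u, hu, t, ht, e⟩ := cross (fun u : ℝ => B (w.re + v u * I))
        (fun t => K (a' + (1 + t) / 2 * (T - a')) + j * (2 * Real.pi * I)) hα.continuousOn
        ((k1.comp (by fun_prop) fun t ht => ha1.trans (mt t ht)).add continuousOn_const)
        (fun t ht => by
          have := abs_le.1 (k3 _ (ha1.trans (mt t ht))).2
          have e1 : v (-1) = p := by rw [hv]; ring
          have e2 : v 1 = q := by rw [hv]; ring
          simp only [e1, e2]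
          simp
          constructor <;> linarith [this.1, this.2])
        (fun u hu => by
          have a1 := (hS (w.re + v u * I) (by simpa using (le_max_left _ _).trans hw)).2
          have a2 : (B (w.re + v u * I)).re ≤ M := hM ⟨u, hu, rfl⟩
          simp
          exact ⟨a1, a2.trans_lt hT1⟩)
      obtain ⟨τ, hτ⟩ : ∃ τ, τ = a' + (1 + t) / 2 * (T - a') := ⟨_, rfl⟩
      have mτ : a' ≤ τ := hτ ▸ mt t ht
      simp only [← hτ] at e
      have e2 := congrArg exp e
      rw [hBe _ (by simpa using ha2.trans_le hw3), exp_add (K τ), exp_int_mul_two_pi_mul_I, mul_one,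
        (k3 τ (ha1.trans mτ)).1] at e2
      obtain ⟨k, hk⟩ := exp_eq_exp_iff_exists_int.1 (hi e2)
      have hv2 : |v u| ≤ D + |β| := by
        rw [abs_le] at hp hq ⊢
        rw [hv]
        constructor <;> nlinarith [hu.1, hu.2, hp.1, hp.2, hq.1, hq.2]
      have hk2 : |k| ≤ N := by
        have a1 := congrArg Complex.im hk
        simp at a1
        have a2 : |(k : ℝ)| * (2 * Real.pi) ≤ 2 * N := by
          have : |(k : ℝ)| * (2 * Real.pi) = |v u - β| := by
            rw [a1, add_sub_cancel_left, abs_mul, abs_of_pos (show 0 < 2 * Real.pi by positivity)]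
          rw [this]
          have := abs_sub (v u) β
          have := (abs_nonneg _).trans hw2
          linarith
        have a3 : |(k : ℝ)| ≤ N := by nlinarith [abs_nonneg (k : ℝ)]
        exact_mod_cast a3
      have a1 := (hE k τ mτ).trans (hE0 k hk2)
      rw [← hk, e] at a1
      simp at a1
      have a2 := (k3 τ (ha1.trans mτ)).2
      have a3 := abs_sub ((K τ).im + j * (2 * Real.pi)) (K τ).im
      rw [add_sub_cancel_left, abs_mul, hj, abs_of_pos (show 0 < 2 * Real.pi by positivity)] at a3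
      nlinarith
    have hD := (abs_nonneg _).trans hw2
    have b0 := abs_le.1 ((hE 0 w.re hw3).trans (hE0 0 (by simp)))
    simp only [Int.cast_zero, zero_mul, add_zero] at b0
    have s1 := step β w.im J (by linarith) (by linarith [abs_nonneg β]) (by simp)
      (by push_cast; nlinarith [b0.2])
    have s2 := step w.im β (-J) (by linarith [abs_nonneg β]) (by linarith) (by simp)
    rw [re_add_im] at s1 s2
    push_cast at s1 s2
    rw [abs_le]
    refine ⟨?_, by linarith [not_lt.1 s1]⟩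
    by_contra hn
    exact s2 (by linarith [not_le.1 hn]) (by nlinarith [b0.1])
  obtain ⟨c, hc⟩ := eventually_atTop.1
    ((l2.eventually_ge_atTop (max S a')).and (eventually_ge_atTop b))
  have cR : ∀ t, c ≤ t → R < (L t).re := fun t ht =>
    ha2.trans_le ((le_max_right _ _).trans (hc t ht).1)
  refine ⟨fun t => B (L t), c, C + J * (2 * Real.pi),
    hB.comp (l1.mono fun t ht => (hc t ht).2) cR, ?_, fun t ht =>
    ⟨by rw [hBe _ (cR t ht), (l3 t (hc t ht).2).1], bound _ (hc t ht).1 (l3 t (hc t ht).2).2⟩⟩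
  refine tendsto_atTop.2 fun M => ?_
  obtain ⟨S', hS'⟩ := hBr M
  filter_upwards [l2.eventually_ge_atTop S'] with t ht using (hS' _ ht).2.le

theorem ray_norm {A : ℂ → ℂ} (hA : IsProperMap A) (β : ℝ) :
    Tendsto (fun s : ℝ => ‖A (exp (s + β * I))‖) atTop atTop := by
  refine tendsto_atTop.2 fun M => ?_
  obtain ⟨R, hR⟩ := big hA M
  filter_upwards [eventually_ge_atTop R] with s hs using (hR _ (by simpa using hs)).le

theorem main' {A : ℂ → ℂ} (hA : IsProperMap A) (hi : A.Injective) {β c : ℝ}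
    (h : (∀ s : ℝ, c ≤ (A (exp (s + β * I))).re) ∨ ∀ s : ℝ, (A (exp (s + β * I))).re ≤ c)
    {γ : ℝ → ℂ} (hγ : Tame γ) : Tame fun t => A (γ t) := by
  have hc : Continuous fun s : ℝ => A (exp (s + β * I)) := hA.continuous.comp (by fun_prop)
  refine main hA hi (β := β) ?_ hγ
  rcases h with h | h
  · exact tame_of_ge hc (ray_norm hA β) h
  · simpa using (tame_of_ge (c := -c) hc.neg (by simpa using ray_norm hA β)
      fun s => by simpa using h s).neg

theorem main'' {A : ℂ → ℂ} (hA : IsProperMap A) (hi : A.Injective) {p : ℂ} {β c : ℝ}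
    (h : (∀ s : ℝ, c ≤ (A (p + exp (s + β * I))).re) ∨ ∀ s : ℝ, (A (p + exp (s + β * I))).re ≤ c)
    {γ : ℝ → ℂ} (hγ : Tame γ) : Tame fun t => A (γ t) := by
  have h1 := main' (A := fun z => -p + z) (Homeomorph.addLeft (-p)).isProperMap
    (add_right_injective _) (β := 0) (c := (-p).re) (Or.inl fun s => by
      simp [exp_ofReal_re, (Real.exp_pos s).le]) hγ
  simpa using main' (A := fun z => A (p + z)) (hA.comp (Homeomorph.addLeft p).isProperMap)
    (hi.comp (add_right_injective _)) h h1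

theorem ivt {φ : ℝ → ℝ} (hφ : Continuous φ) (h : ∀ c, (∃ s, φ s < c) ∧ ∃ s, c < φ s) :
    φ.Surjective := fun c => by
  obtain ⟨⟨s, hs⟩, t, ht⟩ := h c
  exact intermediate_value_univ s t hφ ⟨hs.le, ht.le⟩

theorem ray (f : ℝ × ℝ → ℝ) (hf : Continuous f)
    (ha : ∀ a b c : ℝ, f (f (a, b), c) = f (a, f (b, c))) : ∃ (p : ℂ) (β c : ℝ),
    (∀ s : ℝ, c ≤ f ((p + exp (s + β * I)).re, (p + exp (s + β * I)).im)) ∨
      ∀ s : ℝ, f ((p + exp (s + β * I)).re, (p + exp (s + β * I)).im) ≤ c := by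
  by_contra hn
  push Not at hn
  have h1 : ∀ b c : ℝ, (∃ s, f (Real.exp s, b) < c) ∧ ∃ s, c < f (Real.exp s, b) := fun b c => by
    simpa [exp_ofReal_re] using hn (b * I) 0 c
  have h2 : ∀ a c : ℝ, (∃ s, f (a, Real.exp s) < c) ∧ ∃ s, c < f (a, Real.exp s) := fun a c => by
    have e : ∀ s : ℝ, exp (s + (Real.pi / 2 : ℝ) * I) = (Real.exp s : ℝ) * I := fun s => by
      rw [exp_add, ofReal_exp]
      push_cast
      rw [exp_pi_div_two_mul_I]
    have := hn a (Real.pi / 2) c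
    simp only [e] at this
    simpa [exp_ofReal_re] using this
  obtain ⟨e, he⟩ := ivt (φ := fun s => f (Real.exp s, 0)) (by fun_prop) (h1 0) 0
  obtain ⟨s, hs⟩ := (h2 (Real.exp e) 0).1
  obtain ⟨c, hc⟩ := ivt (φ := fun s => f (0, Real.exp s)) (by fun_prop) (h2 0) (Real.exp s)
  simp only at he hc
  rw [← hc, ← ha, he, hc] at hs
  exact absurd (Real.exp_pos s) (not_lt.2 hs.le)

end Pool.Agent.H.MP_4e7b39_an
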