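import Pool.Agent.H.MP_4e7b39_an.A

set_option autoImplicit false
open Set Filter Complex Topology

namespace Pool.Agent.H.MP_4e7b39_an

theorem surj {S : ℝ × ℝ → ℝ × ℝ} (hS : IsProperMap S) (hi : S.Injective) : S.Surjective := by
  have h1 := Pool.Agent.Lib.helper11.IoD.iod isOpen_univ hS.continuous.continuousOn hi.injOn
  rw [image_univ] at h1
  exact range_eq_univ.1 (IsClopen.eq_univ ⟨hS.isClosedMap.isClosed_range, h1⟩ (range_nonempty S))

/-- identification of the plane with the complex numbers -/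
noncomputable def e : ℂ ≃ₜ ℝ × ℝ := equivRealProdCLM.toHomeomorph

theorem ind (L : List (ℝ × ℝ → ℝ × ℝ)) (h : ∀ S ∈ L, Continuous S ∧
    ∀ a b c : ℝ, (S ((S (a, b)).1, c)).1 = (S (a, (S (b, c)).1)).1) :
    Continuous (L.foldr (fun S R => S ∘ R) id) ∧
    (IsProperMap (L.foldr (fun S R => S ∘ R) id) → (L.foldr (fun S R => S ∘ R) id).Injective →
      ∀ γ, Tame γ → Tame fun t => e.symm (L.foldr (fun S R => S ∘ R) id (e (γ t)))) := by
  induction L with
  | nil => exact ⟨continuous_id, fun _ _ γ hγ => by simpa using hγ⟩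
  | cons S L ih =>
    obtain ⟨c1, ih⟩ := ih fun S hS => h S (List.mem_cons_of_mem _ hS)
    obtain ⟨c2, ha⟩ := h S List.mem_cons_self
    rw [List.foldr_cons]
    refine ⟨c2.comp c1, fun hp hi γ hγ => ?_⟩
    have p1 := isProperMap_of_comp_of_t2 c1 c2 hp
    have s1 := surj p1 hi.of_comp
    have p2 := isProperMap_of_comp_of_surj c1 c2 hp s1
    have i2 : S.Injective := hi.of_comp_right s1
    obtain ⟨p, β, c, hc⟩ := ray (fun x => (S x).1) (by fun_prop) ha
    have := main'' (A := fun z => e.symm (S (e z))) (p := p) (β := β) (c := c)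
      (e.symm.isProperMap.comp (p2.comp e.isProperMap))
      (e.symm.injective.comp (i2.comp e.injective)) hc (ih p1 hi.of_comp γ hγ)
    simpa using this

/-- the spiral map -/
noncomputable def sp (z : ℂ) : ℂ := z * exp ((‖z‖ : ℝ) * I)

theorem sp_norm (z : ℂ) : ‖sp z‖ = ‖z‖ := by simp [sp, norm_exp_ofReal_mul_I]

theorem sp_cont : Continuous sp := by unfold sp; fun_prop

theorem sp_inj : sp.Injective := fun z w h => by
  have h1 : ‖z‖ = ‖w‖ := by rw [← sp_norm z, h, sp_norm]
  unfold sp at h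
  rw [h1] at h
  exact mul_right_cancel₀ (exp_ne_zero _) h

theorem sp_proper : IsProperMap sp := by
  refine isProperMap_iff_tendsto_cocompact.2 ⟨sp_cont, ?_⟩
  rw [← Metric.cobounded_eq_cocompact, ← tendsto_norm_atTop_iff_cobounded]
  simp only [sp_norm]
  exact tendsto_norm_cobounded_atTop (E := ℂ)

theorem not_tame : ¬ Tame fun t : ℝ => sp (exp t) := by
  rintro ⟨L, a, C, h1, -, h3⟩
  have h := uniq (K := fun t : ℝ => t + (Real.exp t : ℝ) * I) h1 (by fun_prop) fun t ht => by
    rw [(h3 t ht).1, exp_add]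
    simp only [sp, norm_exp_ofReal]
  obtain ⟨t, ht1, ht2⟩ := ((Real.tendsto_exp_atTop.eventually_gt_atTop
    (2 * C + Real.exp a)).and (eventually_ge_atTop a)).exists
  have := congrArg Complex.im (h t ht2)
  simp only [sub_im, add_im, ofReal_im, mul_im, ofReal_re, I_im, I_re] at this
  linarith [(abs_le.1 (h3 t ht2).2).2, (abs_le.1 (h3 a le_rfl).2).1]

theorem tame0 : Tame fun t : ℝ => exp t :=
  ⟨fun t => t, 0, 0, by fun_prop, by simp only [ofReal_re]; exact tendsto_id, fun t _ => by simp⟩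

end Pool.Agent.H.MP_4e7b39_an
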